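import Pool.Agent.MWK.Stmts

/-!
# MWK, row LVM (helper30)
-/

namespace Pool.Agent.MWK.H30

open Pool.Agent.Helper14_MV Pool.Agent.Helper2_MV Pool.Agent.MWK

theorem lvm : LvmStmt := by
  intro m u v
  constructor
  · intro j h
    match j, h with
    | 0, h => exact Ag.weaken (F := FB m v) h (fun y x i hg => Or.inl hg)
    | 1, h =>
      refine Ag.weaken (F := FD m 1 v) h (fun y x i hg => ?_)
      rcases hg with hg | ⟨h1, _, h3⟩
      · exact Or.inl hg
      · exact Or.inr ⟨h1, Or.inl h3⟩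
    | e + 2, h =>
      refine Ag.weaken (F := FD m (e + 2) v) h (fun y x i hg => ?_)
      rcases hg with hg | ⟨h1, h3 | h3⟩
      · exact Or.inl hg
      · exact Or.inr ⟨h1, Or.inl h3⟩
      · exact Or.inr ⟨h1, Or.inr h3.mono⟩
  · intro h
    refine Ag.weaken (F := FF (m + 1) v) h (fun y x i hg => ?_)
    rcases hg with hg | ⟨h1, _⟩
    · exact hg.mono
    · exact h1

end Pool.Agent.MWK.H30
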